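import Pool.Agent.H.MP_a29c66.A

set_option autoImplicit false

open Set Filter Topology TopologicalSpace

namespace Pool.Agent.Results.MP_a29c66_gt.Counter

/-- k-spaces -/
def KSpace (Z : Type) [TopologicalSpace Z] : Prop :=
  ∀ F : Set Z, (∀ K : Set Z, IsCompact K → IsClosed (Subtype.val ⁻¹' F : Set K)) → IsClosed F

/-- k_R-spaces -/
def KRSpace (Z : Type) [TopologicalSpace Z] : Prop :=
  T35Space Z ∧ ∀ f : Z → ℝ, (∀ K : Set Z, IsCompact K → Continuous fun x : K => f x) → Continuous f

open Pool.Agent.H.MP_a29c66 Pool.Agent.H.MP_2f53c7 in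
theorem result : ∃ (X Y : Type) (_ : TopologicalSpace X) (_ : TopologicalSpace Y),
    SequentialSpace X ∧ SequentialSpace Y ∧ KRSpace (X × Y) ∧ ¬ KSpace (X × Y) := by
  obtain ⟨M, h0, h1, h2, h3⟩ := H.MP_ba0d78_gt.exists_mad
  have := t3 h2
  have : T35Space (Psi M) := t35 fun x U u h => (small h2 x u h).imp fun _ h =>
    ⟨h.1, h.2.1, h.2.2.1⟩
  have d : Dense (range (pl (M := M))) := dense_iff_inter_open.2 (by
    rintro U u ⟨n | A, h⟩
    · exact ⟨_, h, n, rfl⟩
    · obtain ⟨n, a, b⟩ := ((h1 A A.2).sdiff (u A h)).nonempty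
      exact ⟨_, not_not.1 fun k => b ⟨a, k⟩, n, rfl⟩)
  refine ⟨Z M, Fan, inferInstance, inferInstance, inferInstance, inferInstance, ⟨inferInstance,
    fun f hf => kR (fun x => ?_) (Z_cl h3) fun K hK => continuousOn_iff_continuous_restrict.2
      (hf K hK)⟩, fun H => ?_⟩
  · obtain ⟨n, hn⟩ := u_surj x
    rw [hn]
    exact map_mem_closure (u_cont n) (d _) (by rintro _ ⟨m, rfl⟩; exact ⟨(n, m), rfl⟩)
  · let a := h0.natEmbedding
    let g : ℕ × ℕ → Z M × Fan := fun p => (u p.1 (pr (a p.2)), some p)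
    have c := H (range g) fun K hK => by
      have f1 := fan_cpt (hK.image continuous_snd)
      have f2 : ∀ n, {k | g (n, k) ∈ K}.Finite := fun n => by
        have e : {m | (Sum.inl m : Psi M) ∈ range (pr (M := M))}.Finite :=
          finite_empty.subset (by rintro _ ⟨_, h⟩; cases h)
        refine ((((hK.image ((continuous_apply n).comp (continuous_subtype_val.comp
          continuous_fst))).inter_right
          (closed_of e)).finite (discrete_of (e.subset fun _ h => h.2))).preimage
          (f := fun k => pr (a k)) fun _ _ _ _ h => a.injective (Sum.inr.inj h)).subset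
          fun k hk => ⟨⟨_, hk, by simp [g, u]⟩, _, rfl⟩
      refine (((f1.biUnion fun n _ => (f2 n).image fun k => g (n, k)).preimage
        Subtype.val_injective.injOn).subset ?_).isClosed
      rintro ⟨_, hx⟩ ⟨⟨n, k⟩, rfl⟩
      exact mem_iUnion₂.2 ⟨n, ⟨k, _, hx, rfl⟩, k, hx, rfl⟩
    obtain ⟨U, v1, V, v2, v3⟩ := (mem_nhds_prod_iff (Y := Fan) (x := u 0 (pl 0)) (y := none)).1
      (c.isOpen_compl.mem_nhds (by rintro ⟨_, h⟩; cases congrArg Prod.snd h))
    choose k hk using fun j => ((spine j).eventually v2).exists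
    obtain ⟨n, hn⟩ := ((show Tendsto (fun n => u n (pr (a (k n)))) atTop (𝓝 (u 0 (pl 0))) from
      tendsto_subtype_rng.2 (tendsto_pi_nhds.2 fun i => tendsto_const_nhds.congr'
        ((eventually_gt_atTop i).mono fun n h => by simp [u, h.ne]))).eventually v1).exists
    exact v3 (mk_mem_prod hn (hk n)) ⟨(n, k n), rfl⟩

end Pool.Agent.Results.MP_a29c66_gt.Counter
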